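import Pool.Agent.L7h72.KT.Stm
import Pool.Agent.H387R2.U2

/-!
# Project KT, part SER
-/

set_option autoImplicit false

namespace Pool.Agent.L7h50.KT

open Finset
open Pool.Agent.H387R2.Uni (nuT locT CT Adm)
open Pool.Agent.H373R2.T7 (pz Vz mem_pz)
open Pool.Agent.L7h72.KT

lemma nuT_le (D : Finset ℕ) {p : ℕ} (hp : 0 < p) : nuT D p ≤ p := by
  have : D.image (· % p) ⊆ range p := by
    intro a ha
    rw [mem_image] at ha
    obtain ⟨d, _, rfl⟩ := ha
    exact mem_range.2 (Nat.mod_lt _ hp)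
  have h := card_le_card this
  rw [card_range] at h
  exact h

lemma locT_nonneg (D : Finset ℕ) {p : ℕ} (hp : p.Prime) : 0 ≤ locT D p := by
  unfold locT
  have hp0 : (0 : ℝ) < p := by exact_mod_cast hp.pos
  have hp2 : (2 : ℝ) ≤ p := by exact_mod_cast hp.two_le
  have h1 : (nuT D p : ℝ) / p ≤ 1 := by
    rw [div_le_one hp0]
    exact_mod_cast nuT_le D hp.pos
  have h2 : 1 / (p : ℝ) ≤ 1 := by rw [div_le_one hp0]; linarith
  exact div_nonneg (by linarith) (pow_nonneg (by linarith) _)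

lemma locT_le_one (D : Finset ℕ) {p : ℕ} (hp : p.Prime) (h : ∀ d ∈ D, d < p) : locT D p ≤ 1 := by
  unfold locT
  have hp0 : (0 : ℝ) < p := by exact_mod_cast hp.pos
  have hp2 : (2 : ℝ) ≤ p := by exact_mod_cast hp.two_le
  have hnu : nuT D p = D.card := by
    unfold nuT
    rw [card_image_of_injOn]
    intro a ha b hb hab
    simp only at hab
    rwa [Nat.mod_eq_of_lt (h a ha), Nat.mod_eq_of_lt (h b hb)] at hab
  rw [hnu]
  have h1 : 1 / (p : ℝ) ≤ 1 / 2 := one_div_le_one_div_of_le (by norm_num) hp2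
  have h2 : 0 < 1 - 1 / (p : ℝ) := by linarith
  rw [div_le_one (pow_pos h2 _)]
  have h3 := one_add_mul_le_pow (a := -(1 / (p : ℝ))) (by linarith) D.card
  have e1 : 1 + (D.card : ℝ) * -(1 / (p : ℝ)) = 1 - (D.card : ℝ) / p := by ring
  have e2 : 1 + -(1 / (p : ℝ)) = 1 - 1 / (p : ℝ) := by ring
  rw [e1, e2] at h3
  exact h3

/-- Part SER of project KT. -/
theorem s_SER : S_SER := by
  classical
  intro D H z hD hH
  have hP : HasProd (fun p : {p : ℕ // p.Prime} => locT D p.1) (CT D) :=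
    Pool.Agent.H387R2.Uni.CT_hasProd D
  obtain ⟨s, hs⟩ : ∃ s : Finset {p : ℕ // p.Prime}, s = Finset.subtype Nat.Prime (pz z) := ⟨_, rfl⟩
  have e : ∏ p ∈ s, locT D p.1 = GT z D := by
    rw [hs]
    unfold GT
    rw [Finset.prod_subtype_eq_prod_filter (s := pz z) (p := Nat.Prime) (f := fun p : ℕ => locT D p)]
    apply prod_congr _ (fun _ _ => rfl)
    ext p
    rw [mem_filter, mem_pz]
    tauto
  rw [← e]
  refine le_of_tendsto hP ?_
  filter_upwards [Filter.eventually_ge_atTop s] with t ht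
  rw [← prod_sdiff ht]
  have hz : ∀ p ∈ t \ s, ∀ d ∈ D, d < p.1 := by
    intro p hp d hd
    rw [mem_sdiff, hs] at hp
    have h1 := hD d hd
    by_contra hlt
    apply hp.2
    rw [Finset.mem_subtype, mem_pz]
    exact ⟨by omega, p.2⟩
  apply mul_le_of_le_one_left
  · exact prod_nonneg fun p _ => locT_nonneg D p.2
  · exact prod_le_one (fun p _ => locT_nonneg D p.2) (fun p hp => locT_le_one D p.2 (hz p hp))

end Pool.Agent.L7h50.KT
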