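import Pool.Agent.L7h72.KT.Stm
import Pool.Agent.W218.TX.Up

/-!
# Project KT, part UPP
-/

set_option autoImplicit false

namespace Pool.Agent.L7h50.KT

open Finset Filter
open Pool.Agent.H387R2.Uni (nuT locT CT Adm piT)
open Pool.Agent.L7h72.KT

/-- A set that is not admissible. -/
lemma tc_nonadm (x : ℝ) (D : Finset ℕ) (h : ¬ Adm D) : tc x D ≤ D.card := by
  classical
  unfold Adm at h
  push Not at h
  obtain ⟨p, hp, hle⟩ := h
  have hpk : p ≤ D.card := hle.trans card_image_le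
  have himg : D.image (· % p) = range p := by
    apply eq_of_subset_of_card_le
    · intro a ha
      rw [mem_image] at ha
      obtain ⟨d, _, rfl⟩ := ha
      exact mem_range.2 (Nat.mod_lt _ hp.pos)
    · rw [card_range]; exact hle
  have hsub : (Icc 1 ⌊x⌋₊).filter (fun m => ∀ d ∈ D, (m + d).Prime) ⊆ Icc 1 D.card := by
    intro m hm
    rw [mem_filter, mem_Icc] at hm
    have h1 : (p - m % p) % p ∈ D.image (· % p) := by
      rw [himg, mem_range]
      exact Nat.mod_lt _ hp.pos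
    rw [mem_image] at h1
    obtain ⟨d, hd, hdm⟩ := h1
    have h2 : p ∣ m + d := by
      have h3 : m % p < p := Nat.mod_lt _ hp.pos
      have h4 : (m + d) % p = (m % p + (p - m % p)) % p := by
        rw [Nat.add_mod, hdm, Nat.add_mod (m % p) (p - m % p), Nat.mod_mod]
      rw [Nat.dvd_iff_mod_eq_zero, h4]
      have h5 : m % p + (p - m % p) = p := by omega
      rw [h5, Nat.mod_self]
    have h6 := (Nat.prime_dvd_prime_iff_eq hp (hm.2 d hd)).1 h2
    rw [mem_Icc]
    omega
  have h7 := card_le_card hsub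
  rw [Nat.card_Icc] at h7
  unfold tc
  omega

/-- Comparison with `piT`. -/
lemma tc_le_piT (x : ℝ) (D : Finset ℕ) (h : Adm D) :
    tc x D ≤ piT D (⌊x⌋₊ + sInf (D : Set ℕ)) := by
  classical
  unfold piT tc
  rw [if_pos h]
  apply card_le_card_of_injOn (fun m => m + sInf (D : Set ℕ))
  · intro m hm
    rw [mem_coe, mem_filter, mem_Icc] at hm
    rw [mem_coe, mem_filter, mem_Icc]
    refine ⟨⟨by simp only; omega, by simp only; omega⟩, ?_⟩
    intro t ht
    have h1 : sInf (D : Set ℕ) ≤ t := Nat.sInf_le (by exact_mod_cast ht)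
    have h2 : m + sInf (D : Set ℕ) + (t - sInf (D : Set ℕ)) = m + t := by omega
    simp only
    rw [h2]
    exact hm.2 t ht
  · intro a _ b _ hab
    simp only at hab
    omega

/-- Part UPP of project KT. -/
theorem s_UPP : S_UPP := by
  classical
  intro k hk
  obtain ⟨k', rfl⟩ : ∃ k', k = k' + 1 := ⟨k - 1, by omega⟩
  obtain ⟨C1, hC1, hup⟩ := Pool.Agent.W218.TX.pi_upper k'
  refine ⟨C1 * (2 * 2 ^ (k' + 1)), by positivity, fun B => ?_⟩
  obtain ⟨N1, hN1⟩ := eventually_atTop.1 (hup ((B + 1 : ℕ) : ℝ))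
  have t1 := Real.tendsto_log_atTop.eventually_ge_atTop ((2 : ℝ) ^ (B + 1) + 16)
  have t2 := (isLittleO_log_rpow_rpow_atTop (s := 1) (B : ℝ) one_pos).bound
    (show (0 : ℝ) < 1 by norm_num)
  have t3 := eventually_ge_atTop ((N1 : ℝ) + 16)
  obtain ⟨X, hX⟩ := eventually_atTop.1 (t1.and (t2.and t3))
  refine ⟨X, fun x hx D hcard hD => ?_⟩
  obtain ⟨u1, u2, u3⟩ := hX x hx
  have hn1 : (0 : ℝ) ≤ N1 := Nat.cast_nonneg _
  have hx16 : 16 ≤ x := by linarith
  have hx0 : 0 < x := by linarith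
  have hp2 : (0 : ℝ) < 2 ^ (B + 1) := by positivity
  have hl0 : 0 < Real.log x := by linarith
  have hlB : Real.log x ^ B ≤ x := by
    rw [Real.rpow_one, Real.rpow_natCast, Real.norm_of_nonneg (by positivity),
      Real.norm_of_nonneg hx0.le, one_mul] at u2
    exact u2
  by_cases hadm : Adm D
  · set N : ℕ := ⌊x⌋₊ + sInf (D : Set ℕ) with hN
    have hne : (D : Set ℕ).Nonempty := by
      rw [coe_nonempty, ← card_pos, hcard]
      omega
    have hinf : sInf (D : Set ℕ) ∈ D := by exact_mod_cast Nat.sInf_mem hne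
    have hNx : (N : ℝ) ≤ 2 * x := by
      have h1 : (⌊x⌋₊ : ℝ) ≤ x := Nat.floor_le hx0.le
      have h2 := (hD _ hinf).trans hlB
      rw [hN]
      push_cast
      linarith
    have hNx2 : x / 2 ≤ N := by
      have h1 := Nat.sub_one_lt_floor x
      have h2 : (⌊x⌋₊ : ℝ) ≤ N := by rw [hN]; push_cast; linarith [(Nat.cast_nonneg (sInf (D : Set ℕ)) : (0 : ℝ) ≤ _)]
      linarith
    have hNN : N1 ≤ N := by
      have h1 : N1 ≤ ⌊x⌋₊ := by
        apply Nat.le_floor
        linarith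
      omega
    have hN0 : (0 : ℝ) < N := by linarith
    set l : ℝ := Real.log x with hl
    set L : ℝ := Real.log (N : ℝ) with hL
    have hlL : l / 2 ≤ L := by
      have h5 : √x ≤ N := by
        refine le_trans ?_ hNx2
        rw [Real.sqrt_le_left (by linarith)]
        nlinarith
      have h6 : Real.log (√x) ≤ L := by rw [hL]; exact Real.log_le_log (Real.sqrt_pos.2 hx0) h5
      rw [Real.log_sqrt hx0.le] at h6
      exact h6
    have hL0 : 0 < L := by linarith
    have hlB' : l ^ B ≤ L ^ (B + 1) := by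
      calc l ^ B ≤ (2 * L) ^ B := pow_le_pow_left₀ hl0.le (by linarith) _
        _ = 2 ^ B * L ^ B := mul_pow _ _ _
        _ ≤ L * L ^ B := by
            apply mul_le_mul_of_nonneg_right _ (by positivity)
            have : (2 : ℝ) ^ (B + 1) = 2 ^ B * 2 := pow_succ _ _
            linarith
        _ = L ^ (B + 1) := by rw [pow_succ]; ring
    have h1 := hN1 N hNN D hcard (by
      intro t ht
      rw [Real.rpow_natCast]
      exact (hD t ht).trans hlB')
    have h2 : (tc x D : ℝ) ≤ piT D N := by exact_mod_cast tc_le_piT x D hadm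
    have hCT : 0 ≤ CT D := Pool.Agent.H387R2.Uni.CT_nonneg D
    have h5 : (N : ℝ) / L ^ (k' + 1) * l ^ (k' + 1) ≤ 2 * 2 ^ (k' + 1) * x := by
      rw [div_mul_eq_mul_div, div_le_iff₀ (by positivity)]
      have h6 : l ^ (k' + 1) ≤ 2 ^ (k' + 1) * L ^ (k' + 1) := by
        calc l ^ (k' + 1) ≤ (2 * L) ^ (k' + 1) := pow_le_pow_left₀ hl0.le (by linarith) _
          _ = 2 ^ (k' + 1) * L ^ (k' + 1) := mul_pow _ _ _
      calc (N : ℝ) * l ^ (k' + 1) ≤ (2 * x) * (2 ^ (k' + 1) * L ^ (k' + 1)) :=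
            mul_le_mul hNx h6 (by positivity) (by linarith)
        _ = 2 * 2 ^ (k' + 1) * x * L ^ (k' + 1) := by ring
    have h9 : (0 : ℝ) ≤ ((k' + 1 : ℕ) : ℝ) * l ^ (k' + 1) := by positivity
    calc (tc x D : ℝ) * l ^ (k' + 1) ≤ C1 * ((N / L ^ (k' + 1)) * CT D) * l ^ (k' + 1) := by
          apply mul_le_mul_of_nonneg_right (h2.trans h1) (by positivity)
      _ = C1 * CT D * (N / L ^ (k' + 1) * l ^ (k' + 1)) := by ring
      _ ≤ C1 * CT D * (2 * 2 ^ (k' + 1) * x) := by
          apply mul_le_mul_of_nonneg_left h5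
          positivity
      _ = C1 * (2 * 2 ^ (k' + 1)) * CT D * x := by ring
      _ ≤ _ := by linarith
  · have h1 := tc_nonadm x D hadm
    rw [hcard] at h1
    have h2 : (tc x D : ℝ) ≤ ((k' + 1 : ℕ) : ℝ) := by exact_mod_cast h1
    have hCT : 0 ≤ CT D := Pool.Agent.H387R2.Uni.CT_nonneg D
    have h3 : 0 ≤ C1 * (2 * 2 ^ (k' + 1)) * CT D * x := by positivity
    have h4 : (tc x D : ℝ) * Real.log x ^ (k' + 1) ≤ ((k' + 1 : ℕ) : ℝ) * Real.log x ^ (k' + 1) :=
      mul_le_mul_of_nonneg_right h2 (by positivity)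
    linarith

end Pool.Agent.L7h50.KT
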